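import Pool.Agent.H87RF.Main

/-!
# `ℝ`-factorizable groups with an uncountable discrete family and the equality `2 ^ ℵ₁ = 2 ^ ℵ₀`

If an `ℝ`-factorizable group has an uncountable discrete family of nonempty open sets then
`2 ^ ℵ₁ = 2 ^ ℵ₀`.
-/

namespace Pool.Agent.H80RF

universe u v

open Set Filter Topology Cardinal Pool.Agent.H87RF

/-- the well-ordered set of the countable ordinals -/
abbrev W : Type := (Cardinal.aleph 1).ord.ToType

lemma mk_W : #W = ℵ₁ := by simp [W]

lemma countable_Iio (w : W) : (Iio w).Countable := by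
  have h := Cardinal.mk_Iio_lt (α := W) w (by simp)
  have h2 : #(Iio w) < ℵ₁ := h.trans_eq mk_W
  have h3 : #(Iio w) < Order.succ ℵ₀ := h2.trans_eq Cardinal.succ_aleph0.symm
  rw [← Cardinal.le_aleph0_iff_set_countable]
  exact Order.lt_succ_iff.mp h3

lemma countable_Iic (w : W) : (Iic w).Countable := by
  rw [← Iio_insert]
  exact (countable_Iio w).insert w

instance : Uncountable W := by
  rw [← Cardinal.aleph0_lt_mk_iff, mk_W]
  exact Cardinal.aleph0_lt_aleph_one

lemma exists_gt {S : Set W} (hS : S.Countable) : ∃ a : W, ∀ s ∈ S, s < a := by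
  by_contra hcon
  push Not at hcon
  have h1 : (⋃ s ∈ S, Iic s) = (univ : Set W) := by
    ext a
    simp only [mem_iUnion, mem_Iic, mem_univ, iff_true]
    obtain ⟨s, hs, hsa⟩ := hcon a
    exact ⟨s, hs, hsa⟩
  have h2 : (⋃ s ∈ S, Iic s).Countable := hS.biUnion fun s _ => countable_Iic s
  rw [h1] at h2
  exact absurd h2 not_countable_univ

section thin

variable {G : Type u} [Group G] [TopologicalSpace G]

/-- thinning out a discrete family -/
lemma exists_thin {D : Type v} [Uncountable D] {U : D → Set G} (hd : IsDiscreteFamily U)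
    (p : D → G) :
    ∃ i : W → D, ∀ w a b c : W, a < w → b < w → c < w →
      i a ≠ i w ∧ p (i a) * (p (i b))⁻¹ * p (i c) ∉ U (i w) := by
  classical
  suffices hsuff : ∀ (w : W) (prev : ∀ v, v < w → D), ∃ t : D, ∀ a b c (ha : a < w) (hb : b < w)
      (hc : c < w), prev a ha ≠ t ∧ p (prev a ha) * (p (prev b hb))⁻¹ * p (prev c hc) ∉ U t by
    obtain ⟨i, hi⟩ := exists_rec (W := W) (A := D) _ hsuff
    exact ⟨i, fun w a b c ha hb hc => hi w a b c ha hb hc⟩
  · intro w prev
    have : Countable (Iio w) := (countable_Iio w).to_subtype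
    have hne : Nonempty D := inferInstance
    let F : (Iio w × Iio w × Iio w) × Bool → D := fun q =>
      if q.2 then prev q.1.1.1 q.1.1.2 else
        if h : ∃ t, p (prev q.1.1.1 q.1.1.2) * (p (prev q.1.2.1.1 q.1.2.1.2))⁻¹ *
          p (prev q.1.2.2.1 q.1.2.2.2) ∈ U t then h.choose else hne.some
    obtain ⟨t, ht⟩ : ∃ t, t ∉ range F := by
      by_contra hcon
      push Not at hcon
      have h1 : range F = (Set.univ : Set D) := eq_univ_of_forall hcon
      have h2 := countable_range F
      rw [h1] at h2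
      exact not_countable_univ h2
    refine ⟨t, fun a b c ha hb hc => ⟨?_, ?_⟩⟩
    · intro h
      exact ht ⟨((⟨a, ha⟩, ⟨b, hb⟩, ⟨c, hc⟩), true), h⟩
    · intro h
      refine ht ⟨((⟨a, ha⟩, ⟨b, hb⟩, ⟨c, hc⟩), false), ?_⟩
      have hex : ∃ t, p (prev a ha) * (p (prev b hb))⁻¹ * p (prev c hc) ∈ U t := ⟨t, h⟩
      change (if h : ∃ t, p (prev a ha) * (p (prev b hb))⁻¹ * p (prev c hc) ∈ U t
        then h.choose else hne.some) = t
      rw [dif_pos hex]
      exact hd.eq_of_mem hex.choose_spec h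

end thin

section weights

/-- the weights -/
noncomputable def wt (k : ℕ) : ℝ := 1 / 2 / 2 ^ k

lemma wt_pos (k : ℕ) : 0 < wt k := by unfold wt; positivity

lemma summable_wt : Summable wt := summable_geometric_two' 1

lemma tsum_wt : ∑' k, wt k = 1 := tsum_geometric_two' 1

lemma summable_mul {c : ℕ → ℝ} (h0 : ∀ k, 0 ≤ c k) (h1 : ∀ k, c k ≤ 1) :
    Summable (fun k => c k * wt k) := by
  refine Summable.of_nonneg_of_le (fun k => mul_nonneg (h0 k) (wt_pos k).le) (fun k => ?_)
    summable_wt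
  nlinarith [wt_pos k, h1 k]

lemma tsum_le_one_sub {c : ℕ → ℝ} (h0 : ∀ k, 0 ≤ c k) (h1 : ∀ k, c k ≤ 1) {n : ℕ}
    (hn : c n = 0) : ∑' k, c k * wt k ≤ 1 - wt n := by
  have hs : Summable (fun k => if k = n then wt n else 0) := by
    refine summable_of_ne_finset_zero (s := {n}) ?_
    intro b hb
    rw [Finset.mem_singleton] at hb
    simp [hb]
  have h2 : ∑' k, (wt k - if k = n then wt n else 0) = 1 - wt n := by
    rw [(summable_wt).tsum_sub hs, tsum_wt, tsum_ite_eq]
  rw [← h2]
  refine (summable_mul h0 h1).tsum_le_tsum (fun k => ?_) (summable_wt.sub hs)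
  by_cases hk : k = n
  · subst hk
    simp [hn]
  · simp only [hk, if_false, sub_zero]
    nlinarith [wt_pos k, h1 k]

end weights

section main

variable {G : Type u} [Group G] [TopologicalSpace G] [IsTopologicalGroup G]

/-- the special bump functions -/
lemma exists_special {V : W → Set G} (hV : ∀ w, IsOpen (V w)) {q : W → G} (hq : ∀ w, q w ∈ V w) :
    ∃ b : W → G → ℝ, (∀ w, Continuous (b w)) ∧ (∀ w, b w (q w) = 1) ∧
      (∀ w x, x ∉ V w → b w x = 0) ∧
      ∀ w d, d ≤ w → ∃ ε : ℝ, 0 < ε ∧ ∀ x, q d * (q w)⁻¹ * x ∉ V d → b w x ≤ 1 - ε := by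
  classical
  have h1 : ∀ w d : W, ∃ c : G → ℝ, Continuous c ∧ c (q w) = 1 ∧
      (∀ x, x ∉ V w → c x = 0) ∧ (∀ x, q d * (q w)⁻¹ * x ∉ V d → c x = 0) ∧
      (∀ x, 0 ≤ c x) ∧ ∀ x, c x ≤ 1 := by
    intro w d
    have hopen : IsOpen (V w ∩ {x | q d * (q w)⁻¹ * x ∈ V d}) := by
      refine (hV w).inter ((hV d).preimage ?_)
      fun_prop
    have hmem : q w ∈ V w ∩ {x | q d * (q w)⁻¹ * x ∈ V d} := by
      refine ⟨hq w, ?_⟩
      simp [hq d]
    obtain ⟨b, hbc, hb1, hb0, hbn⟩ := exists_bump hopen hmem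
    refine ⟨fun x => min (b x) 1, by fun_prop, by simp [hb1], ?_, ?_, ?_, ?_⟩
    · intro x hx
      have : b x = 0 := hb0 x (fun h => hx h.1)
      simp [this]
    · intro x hx
      have : b x = 0 := hb0 x (fun h => hx h.2)
      simp [this]
    · intro x
      exact le_min (hbn x) zero_le_one
    · intro x
      exact min_le_right _ _
  choose c hcc hc1 hc0 hc0' hcn hcl using h1
  have h2 : ∀ w : W, ∃ e : ℕ → W, Iic w = range e := fun w =>
    (countable_Iic w).exists_eq_range ⟨w, le_refl w⟩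
  choose e he using h2
  refine ⟨fun w x => ∑' k, c w (e w k) x * wt k, ?_, ?_, ?_, ?_⟩
  · intro w
    refine continuous_tsum (u := wt) (fun k => (hcc w (e w k)).mul continuous_const) summable_wt ?_
    intro k x
    rw [Real.norm_eq_abs, abs_of_nonneg (mul_nonneg (hcn _ _ _) (wt_pos k).le)]
    nlinarith [wt_pos k, hcl w (e w k) x]
  · intro w
    simp only [hc1, one_mul]
    exact tsum_wt
  · intro w x hx
    have : ∀ k, c w (e w k) x * wt k = 0 := fun k => by rw [hc0 w _ x hx, zero_mul]
    simp [this]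
  · intro w d hdw
    have : d ∈ range (e w) := by rw [← he w]; exact hdw
    obtain ⟨k, hk⟩ := this
    refine ⟨wt k, wt_pos k, fun x hx => ?_⟩
    refine tsum_le_one_sub (c := fun k => c w (e w k) x) (fun k => hcn _ _ _) (fun k => hcl _ _ _)
      (n := k) ?_
    simp only [hk]
    exact hc0' w d x hx

omit [IsTopologicalGroup G] in
/-- the key lemma: the function determines the sequence of bits -/
lemma key {V : W → Set G} (hd : IsDiscreteFamily V) {q : W → G} (hq : ∀ w, q w ∈ V w)
    (hthin : ∀ w a b c : W, a < w → b < w → c < w → q a * (q b)⁻¹ * q c ∉ V w)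
    {b : W → G → ℝ} (hb1 : ∀ w, b w (q w) = 1) (hb0 : ∀ w x, x ∉ V w → b w x = 0)
    (hbe : ∀ w d, d ≤ w → ∃ ε : ℝ, 0 < ε ∧ ∀ x, q d * (q w)⁻¹ * x ∉ V d → b w x ≤ 1 - ε)
    {x y : W → Bool} {δ : W} {j : ℕ → W} (hj : ∀ m, j m ≠ δ)
    (hx : ∀ z, Tendsto (fun m => ∑ᶠ w, (if x w then b w (z * ((q δ)⁻¹ * q (j m))) else 0)) atTop
      (𝓝 (∑ᶠ w, (if x w then b w z else 0))))
    (hy : ∀ z, Tendsto (fun m => ∑ᶠ w, (if y w then b w (z * ((q δ)⁻¹ * q (j m))) else 0)) atTop
      (𝓝 (∑ᶠ w, (if y w then b w z else 0))))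
    {w : W} (hδ : δ < w) (hjw : ∀ m, j m < w) (hxy : ∀ v, v < w → x v = y v)
    (hxw : x w = false) (hyw : y w = true) : False := by
  have h0 : ∀ (x : W → Bool) (w : W) (z : G), z ∉ V w → (if x w then b w z else 0) = 0 := by
    intro x w z hz
    rw [hb0 w z hz, ite_self]
  have hval : ∀ (x : W → Bool) {w : W} {z : G}, z ∈ V w →
      ∑ᶠ v, (if x v then b v z else 0) = if x w then b w z else 0 := by
    intro x w z hz
    exact hd.finsum_eq (F := fun v z => if x v then b v z else 0) (h0 x) hz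
  have hval0 : ∀ (x : W → Bool) {z : G}, (∀ w, z ∉ V w) →
      ∑ᶠ v, (if x v then b v z else 0) = 0 := by
    intro x z hz
    exact finsum_eq_zero_of_not_mem (F := fun v z => if x v then b v z else 0) (h0 x) hz
  obtain ⟨ε, hε, hbε⟩ := hbe w δ hδ.le
  have hxl := hx (q w)
  have hyl := hy (q w)
  rw [hval x (hq w), hxw] at hxl
  rw [hval y (hq w), hyw] at hyl
  simp only [if_true, hb1] at hxl hyl
  simp only [Bool.false_eq_true, if_false] at hxl
  have hle : ∀ m, ∑ᶠ v, (if y v then b v (q w * ((q δ)⁻¹ * q (j m))) else 0) ≤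
      max (∑ᶠ v, (if x v then b v (q w * ((q δ)⁻¹ * q (j m))) else 0)) (1 - ε) := by
    intro m
    by_cases hmem : ∃ v, q w * ((q δ)⁻¹ * q (j m)) ∈ V v
    · obtain ⟨v, hv⟩ := hmem
      rw [hval x hv, hval y hv]
      rcases lt_trichotomy v w with h | h | h
      · rw [hxy v h]
        exact le_max_left _ _
      · subst h
        rw [hyw]
        simp only [if_true]
        refine le_trans (hbε _ ?_) (le_max_right _ _)
        have e1 : q δ * (q v)⁻¹ * (q v * ((q δ)⁻¹ * q (j m))) = q (j m) := by group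
        rw [e1]
        intro hmem
        exact hj m (hd.eq_of_mem (hq (j m)) hmem)
      · exfalso
        refine hthin v w δ (j m) h (hδ.trans h) ((hjw m).trans h) ?_
        rw [mul_assoc]
        exact hv
    · push Not at hmem
      rw [hval0 x hmem, hval0 y hmem]
      exact le_max_left _ _
  have hlim := le_of_tendsto_of_tendsto' hyl (hxl.max tendsto_const_nhds) hle
  have : (max 0 (1 - ε) : ℝ) < 1 := max_lt one_pos (by linarith)
  linarith

/-- **Main theorem.** -/
theorem two_pow_aleph_one (hG : IsRFactorizable G) {D : Type v} [Uncountable D] {U : D → Set G}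
    (hd : IsDiscreteFamily U) (hU : ∀ d, IsOpen (U d)) (hne : ∀ d, (U d).Nonempty) :
    (2 : Cardinal.{0}) ^ (ℵ₁ : Cardinal.{0}) = 2 ^ (ℵ₀ : Cardinal.{0}) := by
  classical
  choose p hp using hne
  obtain ⟨i, hi⟩ := exists_thin hd p
  have hinj : Function.Injective i := by
    intro a b hab
    rcases lt_trichotomy a b with h | h | h
    · exact absurd hab (hi b a a a h h h).1
    · exact h
    · exact absurd hab.symm (hi a b b b h h h).1
  set V : W → Set G := fun w => U (i w) with hVdef
  set q : W → G := fun w => p (i w) with hqdef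
  have hdV : IsDiscreteFamily V := hd.comp hinj
  have hV : ∀ w, IsOpen (V w) := fun w => hU (i w)
  have hq : ∀ w, q w ∈ V w := fun w => hp (i w)
  obtain ⟨b, hbc, hb1, hb0, hbe⟩ := exists_special hV hq
  have h0 : ∀ (x : W → Bool) (w : W) (z : G), z ∉ V w → (if x w then b w z else 0) = 0 := by
    intro x w z hz
    rw [hb0 w z hz, ite_self]
  have hfc : ∀ x : W → Bool, Continuous (fun z => ∑ᶠ w, (if x w then b w z else 0)) := by
    intro x
    refine hdV.continuous_finsum (F := fun w z => if x w then b w z else 0) ?_ (h0 x)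
    intro w
    by_cases hw : x w = true
    · simpa [hw] using hbc w
    · simp only [hw, Bool.false_eq_true, if_false]
      exact continuous_const
  have hconv : ∀ x : W → Bool, ∃ (δ : W) (j : ℕ → W), (∀ m, j m ≠ δ) ∧
      ∀ z, Tendsto (fun m => ∑ᶠ w, (if x w then b w (z * ((q δ)⁻¹ * q (j m))) else 0)) atTop
        (𝓝 (∑ᶠ w, (if x w then b w z else 0))) := by
    intro x
    obtain ⟨K, _, _, hKg, hK2, hKs, h, g, hh, hg, hfac⟩ := hG _ (hfc x)
    obtain ⟨δ, hδ⟩ := exists_accumulation (fun w : W => h (q w))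
    obtain ⟨B, hB⟩ := (𝓝 (h (q δ))).exists_antitone_basis
    have hσ : ∀ n, ∃ j, j ≠ δ ∧ h (q j) ∈ B n := fun n => hδ (B n) (hB.mem n)
    choose j hj1 hj2 using hσ
    have hlim : Tendsto (fun n => h (q (j n))) atTop (𝓝 (h (q δ))) := hB.tendsto hj2
    refine ⟨δ, j, hj1, fun z => ?_⟩
    have h1 : Tendsto (fun n => h z * ((h (q δ))⁻¹ * h (q (j n)))) atTop
        (𝓝 (h z * ((h (q δ))⁻¹ * h (q δ)))) := (hlim.const_mul _).const_mul _
    have h2 := (hg.tendsto _).comp h1
    rw [inv_mul_cancel, mul_one, ← hfac] at h2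
    refine h2.congr ?_
    intro n
    simp only [Function.comp]
    rw [hfac (z * ((q δ)⁻¹ * q (j n)))]
    simp
  choose δ j hj hlim using hconv
  have hbd : ∀ x : W → Bool, ∃ a : W, δ x < a ∧ ∀ m, j x m < a := by
    intro x
    obtain ⟨a, ha⟩ := exists_gt ((countable_range (j x)).insert (δ x))
    exact ⟨a, ha _ (mem_insert _ _), fun m => ha _ (mem_insert_of_mem _ ⟨m, rfl⟩)⟩
  choose a ha1 ha2 using hbd
  have henc : ∀ w : W, ∃ n : W → ℕ, InjOn n (Iio w) := by
    intro w
    exact (Set.countable_iff_exists_injOn.mp (countable_Iio w))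
  choose n hn using henc
  let Φ : (W → Bool) → W × (ℕ → W) × W × Set ℕ := fun x =>
    (δ x, j x, a x, {k | ∃ v, v < a x ∧ n (a x) v = k ∧ x v = true})
  have hΦ : Function.Injective Φ := by
    intro x y hxy
    have e1 : δ x = δ y := congrArg Prod.fst hxy
    have e2 : j x = j y := congrArg (fun t => t.2.1) hxy
    have e3 : a x = a y := congrArg (fun t => t.2.2.1) hxy
    have e4 : {k | ∃ v, v < a x ∧ n (a x) v = k ∧ x v = true} =
        {k | ∃ v, v < a y ∧ n (a y) v = k ∧ y v = true} := congrArg (fun t => t.2.2.2) hxy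
    rw [← e3] at e4
    have hlow : ∀ v, v < a x → x v = y v := by
      intro v hv
      have h1 : x v = true ↔ y v = true := by
        constructor
        · intro h
          have : n (a x) v ∈ {k | ∃ v, v < a x ∧ n (a x) v = k ∧ y v = true} := by
            rw [← e4]; exact ⟨v, hv, rfl, h⟩
          obtain ⟨v', hv', hn', hy'⟩ := this
          rw [← hn (a x) hv' hv hn']
          exact hy'
        · intro h
          have : n (a x) v ∈ {k | ∃ v, v < a x ∧ n (a x) v = k ∧ x v = true} := by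
            rw [e4]; exact ⟨v, hv, rfl, h⟩
          obtain ⟨v', hv', hn', hy'⟩ := this
          rw [← hn (a x) hv' hv hn']
          exact hy'
      cases hxv : x v <;> cases hyv : y v <;> simp_all
    by_contra hne
    have hex : ∃ v, x v ≠ y v := by
      by_contra hcon
      push Not at hcon
      exact hne (funext hcon)
    obtain ⟨w, hw, hmin⟩ := WellFounded.has_min (wellFounded_lt : WellFounded ((· < ·) : W → W → Prop))
      {v | x v ≠ y v} hex
    have hmin' : ∀ v, v < w → x v = y v := by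
      intro v hv
      by_contra hcon
      exact hmin v hcon hv
    have haw : a x ≤ w := by
      by_contra hcon
      rw [not_le] at hcon
      exact hw (hlow w hcon)
    have hthin : ∀ w a b c : W, a < w → b < w → c < w → q a * (q b)⁻¹ * q c ∉ V w :=
      fun w a b c h1 h2 h3 => (hi w a b c h1 h2 h3).2
    have hδw : δ x < w := (ha1 x).trans_le haw
    have hjw : ∀ m, j x m < w := fun m => (ha2 x m).trans_le haw
    have hly := hlim y
    rw [← e1, ← e2] at hly
    cases hxw : x w with
    | false =>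
      have hyw : y w = true := by
        cases hyw : y w with
        | true => rfl
        | false => exact absurd (hxw.trans hyw.symm) hw
      exact key hdV hq hthin hb1 hb0 hbe (hj x) (hlim x) hly hδw hjw hmin' hxw hyw
    | true =>
      have hyw : y w = false := by
        cases hyw : y w with
        | false => rfl
        | true => exact absurd (hxw.trans hyw.symm) hw
      exact key hdV hq hthin hb1 hb0 hbe (hj x) hly (hlim x) hδw hjw
        (fun v hv => (hmin' v hv).symm) hyw hxw
  -- cardinal arithmetic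
  have hWR : #W ≤ #ℝ := by
    rw [mk_W, Cardinal.mk_real, ← Cardinal.succ_aleph0]
    exact Order.succ_le_of_lt Cardinal.aleph0_lt_continuum
  obtain ⟨r⟩ := hWR
  let Ψ : W × (ℕ → W) × W × Set ℕ → ℝ × (ℕ → ℝ) × ℝ × Set ℕ := fun t =>
    (r t.1, fun m => r (t.2.1 m), r t.2.2.1, t.2.2.2)
  have hΨ : Function.Injective Ψ := by
    rintro ⟨a1, a2, a3, a4⟩ ⟨b1, b2, b3, b4⟩ hab
    simp only [Ψ, Prod.mk.injEq] at hab
    obtain ⟨h1, h2, h3, h4⟩ := hab
    have e1 := r.injective h1
    have e2 : a2 = b2 := funext fun m => r.injective (congrFun h2 m)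
    have e3 := r.injective h3
    subst e1 e2 e3 h4
    rfl
  have h1 : #(W → Bool) ≤ #(ℝ × (ℕ → ℝ) × ℝ × Set ℕ) :=
    Cardinal.mk_le_of_injective (hΨ.comp hΦ)
  have h2 : #(W → Bool) = 2 ^ (ℵ₁ : Cardinal.{0}) := by
    rw [← Cardinal.power_def, Cardinal.mk_bool, mk_W]
  have h3 : #(ℝ × (ℕ → ℝ) × ℝ × Set ℕ) = 𝔠 := by
    simp [Cardinal.mk_real]
  rw [h2, h3] at h1
  refine le_antisymm ?_ ?_
  · rw [Cardinal.two_power_aleph0]
    exact h1
  · exact Cardinal.power_le_power_left two_ne_zero Cardinal.aleph0_lt_aleph_one.le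

end main

end Pool.Agent.H80RF
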